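import Pool.Agent.Lib.HS32.MAll
import Pool.Agent.Lib.HS76.Diag

/-! Expansion of the logarithm of the determinant to second order, and the comparison principle. -/

open scoped Classical Topology ContDiff ComplexOrder Matrix
open Set Filter Complex

noncomputable section

namespace Pool.Agent.Lib.ZK49

open Pool.Agent.Lib.HS32

variable {n : ℕ} {M : Mf n}

theorem log_two {x : ℝ} (h : |x| ≤ 1 / 2) : |Real.log (1 + x) - (x - x ^ 2 / 2)| ≤ 2 * |x| ^ 3 := by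
  have h1 := Real.abs_log_sub_add_sum_range_le (x := -x) (by rw [abs_neg]; linarith) 2
  rw [abs_neg, sub_neg_eq_add] at h1
  have e : ∑ i ∈ Finset.range 2, (-x) ^ (i + 1) / (i + 1) + Real.log (1 + x) =
      Real.log (1 + x) - (x - x ^ 2 / 2) := by
    simp only [Finset.sum_range_succ, Finset.range_zero, Finset.sum_empty]; push_cast; ring
  rw [e] at h1
  refine h1.trans ?_
  rw [div_le_iff₀ (by linarith), show 2 + 1 = 3 from rfl]
  nlinarith [mul_nonneg (pow_nonneg (abs_nonneg x) 3) (show 0 ≤ 1 - 2 * |x| by linarith)]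

theorem mat_tay {G S : Mat n} {r : ℝ} (hG : G.PosDef) (hS : S.IsHermitian) (hr : r ≤ 1 / 2)
    (h1 : (r • G - S).PosSemidef) (h2 : (S - -(r • G)).PosSemidef) : (G + S).PosDef ∧
    |Real.log ((G + S).det / G.det).re -
      ((G⁻¹ * S).trace.re - (G⁻¹ * S * G⁻¹ * S).trace.re / 2)| ≤ n * (2 * r ^ 3) := by
  obtain ⟨l, h⟩ := HS76.eig hG hS
  have a1 := (h.le_iff r).1 h1
  have a2 := (h.ge_iff (-r)).1 (by rwa [ofReal_neg, neg_smul])
  have a3 : ∀ i, |l i| ≤ r := fun i => abs_le.2 ⟨a2 i, a1 i⟩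
  have a4 : ∀ i, 0 < 1 + l i := fun i => by linarith [a2 i]
  refine ⟨by simpa using (h.pd 1 1).2 (by simpa using a4), ?_⟩
  rw [h.det_add, mul_div_cancel_left₀ _ (Mf.pd_det_ne hG), ofReal_re,
    Real.log_prod fun i _ => (a4 i).ne', mul_assoc (G⁻¹ * S), h.tr_re, h.tr2_re,
    Finset.sum_div, ← Finset.sum_sub_distrib, ← Finset.sum_sub_distrib]
  refine (Finset.abs_sum_le_sum_abs _ _).trans ?_
  refine (Finset.sum_le_card_nsmul _ _ (2 * r ^ 3) fun i _ => ?_).trans (by simp)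
  exact (log_two ((a3 i).trans hr)).trans
    (by gcongr; exact a3 i)

theorem le_abs {G A : M.Fam (Mat n)} {K : ℝ} (h1 : M.Le A (K • G)) (h2 : M.Le (-(K • G)) A)
    (c : ℝ) : M.Le (c • A) ((|c| * K) • G) := fun e he z hz => by
  rcases le_total 0 c with hc | hc
  · have := Mf.psd_rsmul (h1 e he z hz) hc
    rwa [abs_of_nonneg hc, mul_smul, Pi.smul_apply c, Pi.smul_apply c, Pi.smul_apply c,
      Pi.smul_apply c, ← smul_sub]
  · have := Mf.psd_rsmul (h2 e he z hz) (neg_nonneg.2 hc)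
    rw [abs_of_nonpos hc]
    refine (congrArg Matrix.PosSemidef ?_).mp this
    simp only [Pi.smul_apply, Pi.neg_apply]
    module

/-- the expansion to second order -/
theorem tay [M.Cpt] {G A B : M.Fam (Mat n)} (hG : M.Met G) (hA : M.Form A) (hB : M.Form B) :
    ∃ C h₀ : ℝ, 0 < C ∧ 0 < h₀ ∧ ∀ h : ℝ, |h| ≤ h₀ → M.Met (G + h • A + h ^ 2 • B) ∧ ∀ x,
      |Real.log (M.dq G (G + h • A + h ^ 2 • B) x) -
        (h * M.tr G A x + h ^ 2 * (M.tr G B x - M.ip G A A x / 2))| ≤ C * |h| ^ 3 := by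
  obtain ⟨K, K0, K1, K2⟩ := (mBD n M G hG).1 A hA
  obtain ⟨L, L0, L1, L2⟩ := (mBD n M G hG).1 B hB
  obtain ⟨P, P0, hP⟩ := ((mINV n M G hG).2.2.1 A B hA.toTen hB.toTen).2.1.exists_bound
  obtain ⟨Q, Q0, hQ⟩ := ((mINV n M G hG).2.2.1 B B hB.toTen hB.toTen).2.1.exists_bound
  refine ⟨n * (2 * (K + L) ^ 3) + P + Q, min 1 (1 / (2 * (K + L))), by positivity, by positivity,
    fun h hh => ?_⟩
  have b1 : |h| ≤ 1 := hh.trans (min_le_left _ _)
  have b2 : |h| * (K + L) ≤ 1 / 2 := by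
    have := hh.trans (min_le_right _ _)
    rw [le_div_iff₀ (by positivity)] at this
    linarith
  have b0 := abs_nonneg h
  have b3 : |h ^ 2| * L ≤ |h| * L := by rw [abs_pow]; gcongr; nlinarith
  have hS : M.Form (h • A + h ^ 2 • B) := (hA.smul h).add (hB.smul _)
  have c1 : M.Le (h • A + h ^ 2 • B) ((|h| * (K + L)) • G) := by
    refine ((le_abs K1 K2 h).add (le_abs L1 L2 _)).trans ?_
    rw [← add_smul]
    exact hG.le_smul (by linarith)
  have c2 : M.Le ((-h) • A + (-h ^ 2) • B) ((|h| * (K + L)) • G) := by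
    refine ((le_abs K1 K2 _).add (le_abs L1 L2 _)).trans ?_
    rw [← add_smul, abs_neg, abs_neg]
    exact hG.le_smul (by linarith)
  have key : M.All fun e z => _ := fun e he z hz =>
    mat_tay (hG.pos e he z hz) (hS.herm e he z hz) b2 (c1 e he z hz)
      ((congrArg Matrix.PosSemidef (by simp only [Pi.add_apply, Pi.smul_apply]; module)).mp
        (c2 e he z hz))
  rw [add_assoc]
  refine ⟨⟨hG.toForm.add hS, fun e he z hz => (key e he z hz).1⟩, fun x => ?_⟩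
  have k : |Real.log (M.dq G (G + (h • A + h ^ 2 • B)) x) - (M.tr G (h • A + h ^ 2 • B) x -
      M.ip G (h • A + h ^ 2 • B) (h • A + h ^ 2 • B) x / 2)| ≤ _ := (Mf.AllOn.ch key x).2
  have e : M.ip G (h • A + h ^ 2 • B) (h • A + h ^ 2 • B) x =
      h ^ 2 * M.ip G A A x + 2 * h ^ 3 * M.ip G A B x + h ^ 4 * M.ip G B B x := by
    rw [Mf.ip_add, Mf.ip_smul, Mf.ip_smul, Mf.ip_comm, Mf.ip_comm (T := B), Mf.ip_add, Mf.ip_add,
      Mf.ip_smul, Mf.ip_smul, Mf.ip_smul, Mf.ip_smul, Mf.ip_comm (S := B) (T := A)]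
    ring
  rw [e, Mf.tr_add, Mf.tr_smul, Mf.tr_smul] at k
  have d1 : |h ^ 3 * M.ip G A B x| ≤ |h| ^ 3 * P := by
    rw [abs_mul, abs_pow]; gcongr; exact hP x
  have d2 : |h ^ 4 * M.ip G B B x| ≤ |h| ^ 3 * Q := by
    rw [abs_mul, abs_pow]
    exact mul_le_mul (pow_le_pow_of_le_one b0 b1 (by norm_num)) (hQ x) (abs_nonneg _) (by positivity)
  have d3 : 0 ≤ |h| ^ 3 * Q := by positivity
  rw [abs_le] at k d1 d2 ⊢
  rw [mul_pow] at k
  constructor <;> linarith [k.1, k.2, d1.1, d1.2, d2.1, d2.2]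

/-- the determinant is monotone -/
theorem dq_mono {H S T : M.Fam (Mat n)} (hH : M.Met H) {x : M.X} (hS : (M.ev S x).PosDef)
    (h : (M.ev T x - M.ev S x).PosSemidef) : M.dq H S x ≤ M.dq H T x := by
  have hT : (M.ev T x).IsHermitian := by simpa using hS.1.add h.1
  rw [Mf.dq, Mf.dq, ← Mf.herm_det (hH.ev_pos x).1, ← Mf.herm_det hS.1, ← Mf.herm_det hT,
    ← ofReal_div, ← ofReal_div, ofReal_re, ofReal_re]
  exact div_le_div_of_nonneg_right (HS76.det_mono hS h) (Mf.pd_det_re (hH.ev_pos x)).le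

/-- at a maximum of `v - w` the volume form of `v` is the smaller one -/
theorem max_pt [M.Cpt] {H α : M.Fam (Mat n)} {v w : M.X → ℝ} (hH : M.Met H) (hv : M.Sm v)
    (hw : M.Sm w) (hm : M.Met (α + M.hs v)) : ∃ y, (∀ x, v x - w x ≤ v y - w y) ∧
      Real.log (M.dq H (α + M.hs v) y) ≤ Real.log (M.dq H (α + M.hs w) y) := by
  obtain ⟨y, hy⟩ := (hv.sub hw).exists_max
  refine ⟨y, hy, Real.log_le_log (((mINV n M H hH).2.2.2.2.2.2.2 _ hm).1 y)
    (dq_mono hH (hm.ev_pos y) ?_)⟩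
  have h1 := ((((mLAP n M _ v (hv.sub hw) hv).2.2 H hH).2.2.1 y 0).2.2.2.2.2.2.2.2.1
    (Eventually.of_forall hy)).2.2 _ (Mf.ch_mem y) (Mf.mem_ch y)
  rw [(Mf.AllOn.ch ((mLAP n M v w hv hw).1 0) y).2.2.1] at h1
  refine (congrArg Matrix.PosSemidef ?_).mp h1
  simp only [Mf.ev, Pi.add_apply]
  abel

/-- the comparison principle -/
theorem cmp [M.Cpt] {H α : M.Fam (Mat n)} {v w : M.X → ℝ} {l c : ℝ} (hH : M.Met H) (hv : M.Sm v)
    (hw : M.Sm w) (hm : M.Met (α + M.hs v)) (hl : 0 ≤ l)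
    (h : ∀ x, Real.log (M.dq H (α + M.hs w) x) - l * w x - c ≤
      Real.log (M.dq H (α + M.hs v) x) - l * v x) (x : M.X) : l * (v x - w x) ≤ c := by
  obtain ⟨y, h1, h2⟩ := max_pt (w := w) hH hv hw hm
  nlinarith [h y, mul_le_mul_of_nonneg_left (h1 x) hl]

end Pool.Agent.Lib.ZK49
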