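import Pool.Agent.Lib.ZK49.Tay
import Pool.Agent.Lib.HS76.Pt
import Pool.Agent.Lib.ZK26.Boch
import Pool.Agent.Lib.ZK18.Real
import Pool.Agent.Lib.KP21.E21

/-! Convexity in the parameter of the solutions of a family of Monge-Ampère equations. -/

open scoped Classical Topology ContDiff ComplexOrder Matrix
open Set Filter Complex

noncomputable section

namespace Pool.Agent.Lib.ZK49

open Pool.Agent.Lib.HS32 Real

variable {n : ℕ} {M : Mf n}

theorem sig_eq (r : ℝ) : sigmoid r = Real.exp r / (1 + Real.exp r) := by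
  rw [sigmoid_def, Real.exp_neg]
  have := Real.exp_pos r
  field_simp
  ring

theorem sp_tay (r : ℝ) {h : ℝ} (hh : |h| ≤ 1 / 4) :
    Real.log (1 + Real.exp r) + h * sigmoid r + h ^ 2 / 2 * (sigmoid r * (1 - sigmoid r)) -
      20 * |h| ^ 3 ≤ Real.log (1 + Real.exp (r + h)) := by
  have s0 := sigmoid_nonneg r
  have s1 := sigmoid_le_one r
  have a0 := abs_nonneg h
  have b1 := Real.abs_exp_sub_one_le (x := h) (by linarith)
  have b2 := Real.abs_exp_sub_one_sub_id_le (x := h) (by linarith)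
  have b3 := Real.exp_bound (x := h) (by linarith) (n := 3) (by norm_num)
  have e3 : ∑ m ∈ Finset.range 3, h ^ m / (m.factorial : ℝ) = 1 + h + h ^ 2 / 2 := by
    simp [Finset.sum_range_succ, Nat.factorial]
  rw [e3] at b3
  norm_num [Nat.factorial] at b3
  have c1 : |sigmoid r * (Real.exp h - 1)| ≤ 2 * |h| := by
    rw [abs_mul, abs_of_nonneg s0]; nlinarith [abs_nonneg (Real.exp h - 1)]
  have c2 := (abs_le.1 (log_two (c1.trans (by linarith)))).1
  have c3 : |sigmoid r * (Real.exp h - 1)| ^ 3 ≤ (2 * |h|) ^ 3 := by gcongr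
  have e : 1 + Real.exp (r + h) = (1 + Real.exp r) * (1 + sigmoid r * (Real.exp h - 1)) := by
    rw [sig_eq, Real.exp_add]
    have := Real.exp_pos r
    field_simp
    ring
  rw [e, Real.log_mul (by positivity) (by linarith [(abs_le.1 c1).1] : (0 : ℝ) < _).ne']
  have d1 : -|h| ^ 3 ≤ sigmoid r * (Real.exp h - (1 + h + h ^ 2 / 2)) := by
    nlinarith [(abs_le.1 b3).1, pow_nonneg a0 3]
  have d2 : (Real.exp h - 1 - h) * (Real.exp h - 1 + h) ≤ 3 * |h| ^ 3 := by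
    refine (le_abs_self _).trans ?_
    rw [abs_mul]
    calc _ ≤ h ^ 2 * (3 * |h|) :=
          mul_le_mul b2 ((abs_add_le _ _).trans (by linarith)) (abs_nonneg _) (sq_nonneg _)
      _ = _ := by rw [← sq_abs]; ring
  have d3 : sigmoid r ^ 2 * ((Real.exp h - 1 - h) * (Real.exp h - 1 + h)) ≤ 3 * |h| ^ 3 := by
    have : sigmoid r ^ 2 ≤ 1 := by nlinarith
    nlinarith [pow_nonneg a0 3, sq_nonneg (sigmoid r)]
  nlinarith [pow_nonneg a0 3]

theorem sp_lip (r s : ℝ) : Real.log (1 + Real.exp r) - Real.log (1 + Real.exp s) ≤ |r - s| := by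
  rw [sub_le_iff_le_add, ← Real.log_exp |r - s|,
    ← Real.log_mul (Real.exp_pos _).ne' (by positivity)]
  refine Real.log_le_log (by positivity) ?_
  rw [mul_add, mul_one, ← Real.exp_add]
  exact add_le_add (Real.one_le_exp (abs_nonneg _))
    (Real.exp_le_exp.2 (by linarith [le_abs_self (r - s)]))

theorem sp_der (t r : ℝ) :
    HasDerivAt (fun r => Real.log (1 + Real.exp (t - r))) (-sigmoid (t - r)) r := by
  have := (((hasDerivAt_id r).const_sub t).exp.const_add 1).log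
    (show (1 : ℝ) + Real.exp (t - r) ≠ 0 by positivity)
  refine this.congr_deriv ?_
  rw [sig_eq, id]; ring

theorem sig_der (t r : ℝ) : HasDerivAt (fun r => sigmoid (t - r))
    (-(sigmoid (t - r) * (1 - sigmoid (t - r)))) r :=
  ((hasDerivAt_sigmoid (t - r)).comp r ((hasDerivAt_id r).const_sub t)).congr_deriv (by ring)

theorem sp_sm (t r : ℝ) : ContDiffAt ℝ ∞ (fun r => Real.log (1 + Real.exp (t - r))) r :=
  ContDiffAt.log (by fun_prop) (by positivity)

theorem sig_sm (t r : ℝ) : ContDiffAt ℝ ∞ (fun r => sigmoid (t - r)) r :=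
  ((contDiff_sigmoid.of_le le_top).comp (by fun_prop : ContDiff ℝ ∞ fun r : ℝ => t - r)).contDiffAt

theorem rk_one {N : Mat n} (hN : N.IsHermitian) (a b : Fin n → ℂ) :
    (N * Matrix.vecMulVec (star a) b).trace.re ^ 2 ≤
      (N * Matrix.vecMulVec (star a) a * N * Matrix.vecMulVec (star b) b).trace.re := by
  have e : a ⬝ᵥ N *ᵥ star b = star (b ⬝ᵥ N *ᵥ star a) := by
    rw [← Matrix.star_dotProduct_star, Matrix.star_mulVec, hN.eq, star_star,
      Matrix.dotProduct_mulVec]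
  have e' : (N * Matrix.vecMulVec (star a) a * N * Matrix.vecMulVec (star b) b).trace =
      (b ⬝ᵥ N *ᵥ star a) * (a ⬝ᵥ N *ᵥ star b) := by
    rw [Matrix.mul_assoc, Matrix.mul_vecMulVec, Matrix.mul_vecMulVec,
      Matrix.vecMulVec_mul_vecMulVec, Matrix.trace_vecMulVec, dotProduct_smul, smul_eq_mul,
      dotProduct_comm _ b, mul_comm]
  rw [e', e, Matrix.mul_vecMulVec, Matrix.trace_vecMulVec, dotProduct_comm _ b]
  generalize b ⬝ᵥ N *ᵥ star a = c
  rw [star_def, mul_conj, ofReal_re, normSq_apply]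
  nlinarith [mul_self_nonneg c.im]

variable {G : M.Fam (Mat n)} {u y : M.X → ℝ}

theorem ev_ds (hy : M.Sm y) (u : M.X → ℝ) (x : M.X) : M.ev (M.ds y u) x =
    Matrix.vecMulVec (star fun j => dz j (M.lc y (M.ch x)) (M.ch x x))
      fun j => dz j (M.lc u (M.ch x)) (M.ch x x) := by
  ext i j
  exact congrArg (· * _) (star_dz_ofReal (cd_diff (hy.lc _ (Mf.ch_mem x) _ (Mf.ch_tgt x)))).symm

theorem gr_sq_le (hG : M.Met G) (hy : M.Sm y) (hu : M.Sm u) (x : M.X) :
    M.gr G y u x ^ 2 ≤ M.ip G (M.ds y y) (M.ds u u) x := by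
  rw [Mf.gr, Mf.tr, Mf.ip, ev_ds hy, ev_ds hy, ev_ds hu]
  exact rk_one (hG.ev_pos x).1.inv _ _

theorem ip_mono {S T D : M.Fam (Mat n)} (hG : M.Met G) (hD : M.Le 0 D) (h : M.Le S T) (x : M.X) :
    M.ip G D S x ≤ M.ip G D T x :=
  HS76.tr_mul_mono (HS76.conj_inv_psd (hG.ev_pos x) (by simpa [Mf.ev] using Mf.AllOn.ch hD x))
    (Mf.AllOn.ch h x)

theorem ip_fsmul {S T : M.Fam (Mat n)} (v : M.X → ℝ) (x : M.X) :
    M.ip G S (fun e z => v (e.symm z) • T e z) x = v x * M.ip G S T x := by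
  simp only [Mf.ip, Mf.ev, Mf.ch_symm, Matrix.mul_smul, Matrix.trace_smul, smul_re, smul_eq_mul]

theorem gr_sub {f : M.X → ℝ} (hu : M.Sm u) (hf : M.Sm f) (x : M.X) :
    M.gr G (fun x => u x - f x) y x = M.gr G u y x - M.gr G f y x := by
  rw [Mf.gr, Mf.gr, Mf.gr, ← Mf.tr_sub, Mf.tr, Mf.tr]
  congr 3
  ext i j
  have h := dzb_sub (j := i) (cd_diff (hu.lc _ (Mf.ch_mem x) _ (Mf.ch_tgt x)))
    (cd_diff (hf.lc _ (Mf.ch_mem x) _ (Mf.ch_tgt x)))
  have e : M.lc (fun x => u x - f x) (M.ch x) = fun w => M.lc u (M.ch x) w - M.lc f (M.ch x) w :=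
    funext fun w => ofReal_sub _ _
  simp only [Mf.ev, Mf.ds, Pi.sub_apply, Matrix.sub_apply, dd_apply, e, h, sub_mul]

/-- the consequence of the formula of Bochner -/
theorem key {q l f : M.X → ℝ} (hG : M.Kae G) (hy : M.Sm y) (hu : M.Sm u) (hf : M.Sm f)
    (hq : ∀ x, 0 ≤ q x) (he : ∀ x, u x - M.lap G u x = f x)
    (hg : ∀ x, M.gr G f u x = -(q x * M.gr G y u x))
    (hR : M.Le (fun e z => q (e.symm z) • M.ds y y e z)
      (M.ric G + G + fun e z => l (e.symm z) • G e z)) (x : M.X) :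
    M.ip G (M.hs u) (M.hs u) x + M.gr G u u x - q x - l x * M.gr G u u x ≤
      M.lap G (M.gr G u u) x := by
  have h1 := ZK26.boch n M G u hG hu x
  have h2 := ip_mono hG.toMet ((mHES n M).2.2.1 u hu).2 hR x
  rw [show M.lap G u = fun x => u x - f x from funext fun x => by linarith [he x], gr_sub hu hf, hg,
    Mf.ip_comm (S := M.ric G)] at h1
  rw [Mf.ip_add, Mf.ip_add, ip_fsmul, ip_fsmul, hG.toMet.ip_self, Mf.ip_comm] at h2
  have h3 := mul_le_mul_of_nonneg_left (gr_sq_le hG.toMet hy hu x) (hq x)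
  have h4 := mul_nonneg (hq x) (sq_nonneg (1 + M.gr G y u x))
  have h5 : M.tr G (M.ds u u) x = M.gr G u u x := rfl
  rw [h5] at h2
  nlinarith

/-- the bound for the gradient -/
theorem grad_bd [M.Cpt] {q l f : M.X → ℝ} {p K : ℝ} (hG : M.Met G) (hu : M.Sm u)
    (he : ∀ x, u x - M.lap G u x = f x) (hf : ∀ x, |f x| ≤ p) (hq : ∀ x, q x ≤ p)
    (hl : ∀ x, l x ≤ K) (hK : 0 ≤ K)
    (h : ∀ x, M.gr G u u x - q x - l x * M.gr G u u x ≤ M.lap G (M.gr G u u) x) (x : M.X) :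
    M.gr G u u x ≤ p + 3 * K * p ^ 2 := by
  have hb : ∀ x, |u x| ≤ p := fun x => by
    simpa using (HS21.eLINR.mx M G u 1 p hG hu one_pos (fun x => by rw [one_mul, he]; exact hf x) x)
  have hz := ((mLAP n M u u hu hu).2.2 G hG).2.1
  have hs : M.Sm fun x => K / 2 * (u x * u x) := (hu.mul hu).const_mul _
  obtain ⟨y, hy⟩ := (hz.add hs).exists_max
  have h1 := ((((mLAP n M _ u (hz.add hs) hu).2.2 G hG).2.2.1 y 0).2.2.2.2.2.2.2.2.1
    (Eventually.of_forall hy)).1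
  have h2 := ((mLAP n M u u hu hu).2.2 G hG).2.2.1 y 0
  rw [(((mLAP n M _ _ hz hs).2.2 G hG).2.2.1 y 0).2.1,
    (((mLAP n M _ u (hu.mul hu) hu).2.2 G hG).2.2.1 y _).2.2.2.1, h2.2.2.2.2.1] at h1
  have h3 : -(2 * p ^ 2) ≤ u y * M.lap G u y := by
    refine (abs_le.1 ?_).1
    rw [abs_mul, show M.lap G u y = u y - f y by linarith [he y]]
    calc _ ≤ p * (2 * p) := mul_le_mul (hb y) ((abs_sub _ _).trans (by linarith [hb y, hf y]))
          (abs_nonneg _) ((abs_nonneg _).trans (hb y))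
      _ = _ := by ring
  have h4 : u y * u y ≤ p ^ 2 := by rw [← sq]; exact sq_le_sq' (abs_le.1 (hb y)).1 (abs_le.1 (hb y)).2
  nlinarith [h y, hq y, hy x, mul_le_mul_of_nonneg_right (hl y) h2.2.2.2.2.2.2.1,
    mul_le_mul_of_nonneg_left h3 hK, mul_le_mul_of_nonneg_left h4 hK,
    mul_nonneg hK (mul_self_nonneg (u x))]

/-- a family of Monge-Ampère equations -/
structure Fm (H α : M.Fam (Mat n)) (y F : M.X → ℝ) (p : ℝ) (w : ℝ → M.X → ℝ) : Prop where
  hH : M.Met H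
  hα : M.Clo α
  hy : M.Sm y
  hF : M.Sm F
  hp : 0 ≤ p
  sm : ∀ t, M.Sm (w t)
  met : ∀ t, M.Met (α + M.hs (w t))
  eq : ∀ t x, Real.log (M.dq H (α + M.hs (w t)) x) =
    w t x + F x - p * Real.log (1 + Real.exp (t - y x))

/-- the curvature hypothesis at one time, with the loss `l` and the barrier `b` -/
structure Cv (H α G : M.Fam (Mat n)) (y F : M.X → ℝ) (p κ K : ℝ) (l b : M.X → ℝ) : Prop where
  l0 : ∀ x, 0 ≤ l x
  lK : ∀ x, l x ≤ K
  sm : M.Sm b
  le : ∀ x, b x ≤ κ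
  c0 : M.Le 0 (M.ric H + α - M.hs F + fun e z => l (e.symm z) • G e z)
  c1 : M.Le 0 (M.ric H + α - M.hs F - p • M.hs y + fun e z => l (e.symm z) • G e z)
  bar : ∀ x, l x * (p + 3 * K * p ^ 2) ≤ b x - M.lap G b x

variable {H α : M.Fam (Mat n)} {F l b : M.X → ℝ} {p κ K t : ℝ} {w : ℝ → M.X → ℝ}

theorem Fm.kae (h : Fm H α y F p w) (t : ℝ) : M.Kae (α + M.hs (w t)) :=
  ⟨h.hα.add ((mHES n M).1 _ (h.sm t)), (h.met t).pos⟩

theorem Fm.lip [M.Cpt] (h : Fm H α y F p w) (s t : ℝ) (x : M.X) : w s x - w t x ≤ p * |s - t| := by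
  rw [← one_mul (w s x - w t x)]
  refine cmp h.hH (h.sm s) (h.sm t) (h.met s) zero_le_one (fun x => ?_) x
  have := mul_le_mul_of_nonneg_left (sp_lip (s - y x) (t - y x)) h.hp
  rw [sub_sub_sub_cancel_right] at this
  rw [h.eq, h.eq]
  linarith

theorem Fm.cont [M.Cpt] (h : Fm H α y F p w) (x : M.X) : Continuous fun t => w t x :=
  (LipschitzWith.of_dist_le' (K := p) fun s t => abs_sub_le_iff.2
    ⟨h.lip s t x, (h.lip t s x).trans_eq (congrArg (p * ·) (abs_sub_comm _ _))⟩).continuous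

theorem Fm.ric (h : Fm H α y F p w) (c : Cv H α (α + M.hs (w t)) y F p κ K l b) :
    M.Le (fun e z => (p * (sigmoid (t - y (e.symm z)) * (1 - sigmoid (t - y (e.symm z))))) •
      M.ds y y e z) (M.ric (α + M.hs (w t)) + (α + M.hs (w t)) +
        fun e z => l (e.symm z) • (α + M.hs (w t)) e z) := fun e he z hz => by
  have a1 := (mLAP n M y y h.hy h.hy).2.1 _ fun x => sp_sm t (y x)
  have a2 := (a1.2 e he z hz).1
  have a3 := ((mHES n M).2.2.2.2.2.2.2.2.2 _ H (h.met t) h.hH).2 e he z hz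
  rw [show deriv _ = _ from funext fun r => (sp_der t r).deriv, ((sig_der t _).fun_neg).deriv] at a2
  rw [funext (h.eq t), ((mLAP n M _ _ ((h.sm t).add h.hF) (a1.1.const_mul p)).1 0 e he z hz).2.2.1,
    ((mLAP n M _ _ (h.sm t) h.hF).1 0 e he z hz).2.1,
    ((mLAP n M _ y a1.1 h.hy).1 p e he z hz).2.2.2.1, a2] at a3
  have a4 := (Mf.psd_rsmul (c.c0 e he z hz) (sub_nonneg.2 (sigmoid_le_one (t - y (e.symm z))))).add
    (Mf.psd_rsmul (c.c1 e he z hz) (sigmoid_nonneg (t - y (e.symm z))))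
  refine (congrArg Matrix.PosSemidef ?_).mp a4
  simp only [Pi.add_apply, Pi.sub_apply, Pi.smul_apply, Pi.zero_apply, a3]
  module

/-- the subsolution of second order -/
theorem Fm.sub [M.Cpt] (h : Fm H α y F p w) (c : Cv H α (α + M.hs (w t)) y F p κ K l b) :
    ∃ (u : M.X → ℝ) (C h₀ : ℝ), 0 < h₀ ∧ ∀ r, |r| ≤ h₀ → ∀ x,
      w t x + r * u x - κ / 2 * r ^ 2 - C * |r| ^ 3 ≤ w (t + r) x := by
  have hG := h.kae t
  obtain ⟨V, -⟩ := (mCOV n M).2.2.1
  have a1 := (mLAP n M y y h.hy h.hy).2.1 _ fun x => sig_sm t (y x)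
  obtain ⟨u, hu, he⟩ := HS21.eLINR.ex M V _ _ 1 hG.toMet (a1.1.const_mul p) one_pos
  simp only [one_mul] at he
  have s0 := fun x => sigmoid_nonneg (t - y x)
  have s1 := fun x => sigmoid_le_one (t - y x)
  have hp := h.hp
  have k := key hG h.hy hu (a1.1.const_mul p)
    (fun x => mul_nonneg hp (mul_nonneg (s0 x) (sub_nonneg.2 (s1 x)))) he (fun x => by
      rw [(((mLAP n M y u h.hy hu).2.2 _ hG.toMet).2.2.2.1 (fun r => p * sigmoid (t - r))
        (fun x => contDiffAt_const.mul (sig_sm t _)) x).2, ((sig_der t _).const_mul p).deriv]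
      ring) (h.ric c)
  have hz := ((mLAP n M u u hu hu).2.2 _ hG.toMet).2.1
  have z0 := fun x => (((mLAP n M u u hu hu).2.2 _ hG.toMet).2.2.1 x 0).2.2.2.2.2.2.1
  have hA := ((mHES n M).1 u hu).toForm
  have zb := fun x => grad_bd (K := K)
    (q := fun x => p * (sigmoid (t - y x) * (1 - sigmoid (t - y x)))) hG.toMet hu he
    (fun x => abs_le.2 ⟨by nlinarith [s0 x], by nlinarith [s1 x]⟩)
    (fun x => mul_le_of_le_one_right hp (by nlinarith [s0 x, s1 x])) c.lK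
    ((c.l0 x).trans (c.lK x)) (fun x => by
      linarith [k x, show 0 ≤ M.ip (α + M.hs (w t)) (M.hs u) (M.hs u) x from by
        rw [Mf.ip, mul_assoc]; exact HS76.tr2_nonneg (hG.toMet.ev_pos x) (Mf.AllOn.ch hA.herm x)]) x
  have hv := (hz.sub c.sm).const_mul (1 / 2)
  obtain ⟨C, h₀, C0, h0, hT⟩ := tay hG.toMet hA ((mHES n M).1 _ hv).toForm
  refine ⟨u, C + 20 * p, min h₀ (1 / 4), by positivity, fun r hr x => ?_⟩
  obtain ⟨m, hm⟩ := hT r (hr.trans (min_le_left _ _))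
  have hs := ((h.sm t).add (hu.const_mul r)).add (hv.const_mul (r ^ 2))
  have e : M.All fun e z => (α + M.hs fun x => w t x + r * u x + r ^ 2 *
      (1 / 2 * (M.gr (α + M.hs (w t)) u u x - b x))) e z = (α + M.hs (w t) + r • M.hs u +
      r ^ 2 • M.hs fun x => 1 / 2 * (M.gr (α + M.hs (w t)) u u x - b x)) e z := fun e he z hz => by
    simp only [Pi.add_apply, Pi.smul_apply]
    rw [((mLAP n M _ _ ((h.sm t).add (hu.const_mul r)) (hv.const_mul _)).1 0 e he z hz).2.1,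
      ((mLAP n M _ _ (h.sm t) (hu.const_mul r)).1 0 e he z hz).2.1,
      ((mLAP n M _ _ hu hu).1 r e he z hz).2.2.2.1, ((mLAP n M _ _ hv hu).1 _ e he z hz).2.2.2.1]
    abel
  have f := cmp (l := 1) (c := (C + 20 * p) * |r| ^ 3) h.hH hs (h.sm (t + r)) (m.congr e)
    zero_le_one (fun x => by
      have i := (mINV n M H h.hH).2.2.2.2.2.2.2 _ hG.toMet
      have j := (abs_le.1 (hm x)).1
      have j1 : M.tr _ _ x = _ := (((mLAP n M _ u (hz.sub c.sm) hu).2.2 _ hG.toMet).2.2.1 x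
        (1 / 2)).2.2.2.1
      have j2 := (((mLAP n M _ _ hz c.sm).2.2 _ hG.toMet).2.2.1 x 0).2.2.1
      have j3 : M.tr (α + M.hs (w t)) (M.hs u) x = u x - p * sigmoid (t - y x) := by
        rw [← he x, Mf.lap]; ring
      have j4 := mul_le_mul_of_nonneg_left (sp_tay (t - y x) (hr.trans (min_le_right _ _))) hp
      have j5 := mul_le_mul_of_nonneg_left (zb x) (c.l0 x)
      have j6 := mul_le_mul_of_nonneg_left (show M.ip _ (M.hs u) (M.hs u) x +
        (M.gr (α + M.hs (w t)) u u x - b x) - p * (sigmoid (t - y x) * (1 - sigmoid (t - y x))) ≤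
        M.lap _ (fun x => M.gr (α + M.hs (w t)) u u x - b x) x by linarith [k x, c.bar x])
        (sq_nonneg r)
      rw [Mf.dq_congr (fun _ _ _ _ => rfl) e, i.2.2.1 _ m.toForm x, Real.log_mul (i.1 x).ne'
        (((mINV n M _ hG.toMet).2.2.2.2.2.2.2 _ m).1 x).ne', h.eq, h.eq,
        show t + r - y x = t - y x + r by ring]
      rw [j1, j3] at j
      linarith) x
  nlinarith [mul_le_mul_of_nonneg_left (show -κ ≤ M.gr (α + M.hs (w t)) u u x - b x by
    linarith [z0 x, c.le x]) (sq_nonneg r)]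

/-- second differences -/
theorem Fm.sd [M.Cpt] (h : Fm H α y F p w) (c : Cv H α (α + M.hs (w t)) y F p κ K l b) (x : M.X) :
    ∃ C : ℝ, ∀ᶠ r in 𝓝[>] (0 : ℝ),
      -(κ * r ^ 2) - C * r ^ 3 ≤ w (t + r) x + w (t - r) x - 2 * w t x := by
  obtain ⟨u, C, h₀, h0, hu⟩ := h.sub c
  refine ⟨2 * C, ?_⟩
  filter_upwards [Ioc_mem_nhdsGT h0] with r hr
  have a := hu r (by rw [abs_of_pos hr.1]; exact hr.2) x
  have a' := hu (-r) (by rw [abs_neg, abs_of_pos hr.1]; exact hr.2) x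
  rw [abs_neg, ← sub_eq_add_neg, neg_sq] at a'
  rw [abs_of_pos hr.1] at a a'
  linarith

/-- convexity up to the size of the barriers -/
theorem Fm.cvx [M.Cpt] (h : Fm H α y F p w) {T : ℝ}
    (c : ∀ s ∈ Ioo 0 T, ∃ K l b, Cv H α (α + M.hs (w s)) y F p κ K l b) (h0 : 0 ≤ t) (hT : t ≤ T)
    (x : M.X) : T * w t x ≤ (T - t) * w 0 x + t * w T x + T * (κ / 2 * (t * (T - t))) :=
  ZK18.extrap (f := fun t => w t x) (h.cont x).continuousOn
    (fun s hs => by obtain ⟨K, l, b, c⟩ := c s hs; exact h.sd c x) h0 hT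

/-- convexity -/
theorem Fm.cvx0 [M.Cpt] (h : Fm H α y F p w) (c0 : M.Le 0 (M.ric H + α - M.hs F))
    (c1 : M.Le 0 (M.ric H + α - M.hs F - p • M.hs y)) {T : ℝ} (h0 : 0 ≤ t) (hT : t ≤ T)
    (x : M.X) : T * w t x ≤ (T - t) * w 0 x + t * w T x := by
  simpa using h.cvx (κ := 0) (fun s _ => ⟨0, fun _ => 0, fun _ => 0, fun _ => le_rfl,
    fun _ => le_rfl, Mf.sm_const 0, fun _ => le_rfl,
    c0.congr (fun _ _ _ _ => rfl) fun _ _ _ _ => by simp,
    c1.congr (fun _ _ _ _ => rfl) fun _ _ _ _ => by simp, fun x => by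
      rw [(((mLAP n M y y h.hy h.hy).2.2 _ (h.met s)).2.2.1 x 0).1]; simp⟩) h0 hT x

end Pool.Agent.Lib.ZK49
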